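import Pool.Agent.U954.TA.Eng2
import Pool.Agent.N507.EZ.Log

/-!
# Marked self-avoiding walks: differences of the logarithms
-/

set_option autoImplicit false
set_option linter.unusedVariables false

namespace Pool.Agent.U954.TA

open Pool.Agent.H976R2 Pool.Agent.H976R2.Dir Finset
open Pool.Agent.N929.EX Pool.Agent.N929.EY Pool.Agent.N929.EZ
open scoped Classical

noncomputable section

/-- from differences with error terms to differences of the logarithms -/
theorem to_log (r : ℕ) (hr : 1 ≤ r) (A0 C0 : ℝ) (hA0 : 0 < A0) (hC0 : 0 < C0) :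
    ∃ A C : ℝ, 0 < A ∧ 0 < C ∧ ∀ (f : ℕ → ℝ) (g x Λ : ℝ), 1 ≤ Λ → 0 < g → g ≤ Real.exp Λ →
      0 ≤ x → 0 < f 0 → x ≤ Real.exp Λ * f 0 → A * Λ ≤ g →
      (∀ (s j : ℕ) (ε : ℝ), s + j ≤ r → 0 < ε → ε ≤ 1 →
        |Df s f j| ≤ C0 * (ε ^ s * f j + Real.exp (-(ε ^ 2 * g / A0)) * x)) →
      (∀ j, j ≤ r → f 0 / 2 ≤ f j ∧ f j ≤ 2 * f 0) ∧
      |Df r (fun j => Real.log (f j)) 0| ≤ C * (Real.sqrt (Λ / g)) ^ r := by
  obtain ⟨C1, hC1, hlog⟩ := Pool.Agent.N507.EZ.log_diff r hr (3 * C0 + 2) (by positivity)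
  obtain ⟨K, hK⟩ : ∃ K : ℝ, K = Real.sqrt (A0 * (1 + r / 2)) + 1 := ⟨_, rfl⟩
  have hr0 : (0 : ℝ) < r := by exact_mod_cast hr
  have hK1 : 1 ≤ K := by
    rw [hK]
    have := Real.sqrt_nonneg (A0 * (1 + (r : ℝ) / 2))
    linarith
  have hK2 : A0 * (1 + r / 2) ≤ K ^ 2 := by
    have h1 := Real.sq_sqrt (show 0 ≤ A0 * (1 + (r : ℝ) / 2) by positivity)
    have h2 : Real.sqrt (A0 * (1 + (r : ℝ) / 2)) ^ 2 ≤ K ^ 2 := by
      apply pow_le_pow_left₀ (Real.sqrt_nonneg _)
      rw [hK]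
      linarith
    linarith
  have hK0 : 0 < K := by linarith
  refine ⟨K ^ 2 * (5 * r * (C0 + 1)) ^ 2, C1 * K ^ r, by positivity, by positivity,
    fun f g x Λ hΛ hg hgΛ hx hf0 hxf hA hD => ?_⟩
  obtain ⟨σ, hσ⟩ : ∃ σ : ℝ, σ = Real.sqrt (Λ / g) := ⟨_, rfl⟩
  have hΛg : 0 < Λ / g := by positivity
  have hσ0 : 0 < σ := by rw [hσ]; exact Real.sqrt_pos.mpr hΛg
  have hσ2 : σ ^ 2 = Λ / g := by rw [hσ]; exact Real.sq_sqrt hΛg.le
  obtain ⟨ε, hε⟩ : ∃ ε : ℝ, ε = K * σ := ⟨_, rfl⟩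
  have hε0 : 0 < ε := by rw [hε]; positivity
  have hε2 : ε ^ 2 = K ^ 2 * (Λ / g) := by rw [hε, mul_pow, hσ2]
  have hden : 0 < 5 * (r : ℝ) * (C0 + 1) := by positivity
  have hεs : ε ≤ 1 / (5 * r * (C0 + 1)) := by
    rw [← abs_of_pos hε0, ← abs_of_pos (show 0 < 1 / (5 * (r : ℝ) * (C0 + 1)) by positivity),
      ← sq_le_sq, hε2, div_pow, one_pow, le_div_iff₀ (by positivity), mul_comm (K ^ 2) (Λ / g),
      mul_assoc, div_mul_eq_mul_div, div_le_one hg]
    linarith
  have hr1 : (1 : ℝ) ≤ r := by exact_mod_cast hr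
  have hε1 : ε ≤ 1 := by
    refine hεs.trans ?_
    rw [div_le_one hden]
    nlinarith
  -- the error term
  have herr : Real.exp (-(ε ^ 2 * g / A0)) * x ≤ ε ^ r * f 0 := by
    have h1 : Real.exp (-(ε ^ 2 * g / A0)) ≤ Real.exp (-((1 + r / 2) * Λ)) := by
      apply Real.exp_le_exp.mpr
      rw [neg_le_neg_iff, le_div_iff₀ hA0, hε2]
      calc (1 + (r : ℝ) / 2) * Λ * A0 = A0 * (1 + r / 2) * Λ := by ring
        _ ≤ K ^ 2 * Λ := mul_le_mul_of_nonneg_right hK2 (by linarith)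
        _ = K ^ 2 * (Λ / g) * g := by field_simp
    have h2 : Real.exp (-(r / 2 * Λ)) ≤ ε ^ r := by
      have h3 : Real.exp (-(Λ / 2)) ≤ ε := by
        have h4 : Real.exp (-(Λ / 2)) ≤ σ := by
          rw [hσ]
          apply Real.le_sqrt_of_sq_le
          have h5 : Real.exp (-(Λ / 2)) ^ 2 = Real.exp (-Λ) := by
            rw [← Real.exp_nat_mul]
            congr 1
            push_cast
            ring
          rw [h5, Real.exp_neg, le_div_iff₀ hg, inv_mul_le_iff₀ (Real.exp_pos _)]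
          nlinarith [Real.exp_pos Λ]
        refine h4.trans ?_
        rw [hε]
        nlinarith
      have h6 : Real.exp (-(r / 2 * Λ)) = Real.exp (-(Λ / 2)) ^ r := by
        rw [← Real.exp_nat_mul]
        congr 1
        ring
      rw [h6]
      exact pow_le_pow_left₀ (Real.exp_pos _).le h3 r
    calc Real.exp (-(ε ^ 2 * g / A0)) * x
        ≤ Real.exp (-((1 + r / 2) * Λ)) * (Real.exp Λ * f 0) :=
          mul_le_mul h1 hxf hx (Real.exp_pos _).le
      _ = Real.exp (-(r / 2 * Λ)) * f 0 := by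
          rw [← mul_assoc, ← Real.exp_add]
          congr 2
          ring
      _ ≤ ε ^ r * f 0 := mul_le_mul_of_nonneg_right h2 hf0.le
  have herr' : ∀ s, s ≤ r → Real.exp (-(ε ^ 2 * g / A0)) * x ≤ ε ^ s * f 0 := by
    intro s hs
    refine herr.trans (mul_le_mul_of_nonneg_right ?_ hf0.le)
    exact pow_le_pow_of_le_one hε0.le hε1 hs
  -- comparability
  have hcmp : ∀ j, j ≤ r → |f j - f 0| ≤ (j : ℝ) / (2 * r) * f 0 := by
    intro j
    induction j with
    | zero => intro _; simp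
    | succ j ih =>
      intro hj
      have ih' := ih (by omega)
      have h1 := hD 1 j ε (by omega) hε0 hε1
      have h2 : Df 1 f j = f j - f (j + 1) := by
        unfold Df
        rw [sum_range_succ, sum_range_one]
        simp
        ring
      rw [h2, pow_one] at h1
      have h3 := herr' 1 hr
      rw [pow_one] at h3
      have h4 : (j : ℝ) / (2 * r) ≤ 1 / 2 := by
        rw [div_le_div_iff₀ (by positivity) (by norm_num)]
        have : (j : ℝ) ≤ r := by
          have : j ≤ r := by omega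
          exact_mod_cast this
        linarith
      have h5 : f j ≤ 3 / 2 * f 0 := by
        have h6 := (abs_le.mp ih').2
        have h7 : (j : ℝ) / (2 * r) * f 0 ≤ 1 / 2 * f 0 := mul_le_mul_of_nonneg_right h4 hf0.le
        linarith
      have h6 : |f j - f (j + 1)| ≤ C0 * (5 / 2) * ε * f 0 := by
        refine h1.trans ?_
        have h7 : ε * f j ≤ ε * (3 / 2 * f 0) := mul_le_mul_of_nonneg_left h5 hε0.le
        calc C0 * (ε * f j + Real.exp (-(ε ^ 2 * g / A0)) * x)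
            ≤ C0 * (ε * (3 / 2 * f 0) + ε * f 0) := by
              refine mul_le_mul_of_nonneg_left ?_ hC0.le
              linarith
          _ = _ := by ring
      have h7 : C0 * (5 / 2) * ε ≤ 1 / (2 * r) := by
        calc C0 * (5 / 2) * ε ≤ C0 * (5 / 2) * (1 / (5 * r * (C0 + 1))) := by gcongr
          _ ≤ 1 / (2 * r) := by
            rw [mul_one_div, div_le_div_iff₀ hden (by positivity)]
            nlinarith
      have h8 : C0 * (5 / 2) * ε * f 0 ≤ 1 / (2 * r) * f 0 :=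
        mul_le_mul_of_nonneg_right h7 hf0.le
      have h9 : ((j + 1 : ℕ) : ℝ) / (2 * r) * f 0 = (j : ℝ) / (2 * r) * f 0 + 1 / (2 * r) * f 0 := by
        push_cast
        ring
      rw [h9]
      have h10 : f (j + 1) - f 0 = (f j - f 0) - (f j - f (j + 1)) := by ring
      rw [h10]
      exact (abs_sub _ _).trans (by linarith)
  have hcmp2 : ∀ j, j ≤ r → f 0 / 2 ≤ f j ∧ f j ≤ 3 / 2 * f 0 := by
    intro j hj
    have h1 := abs_le.mp (hcmp j hj)
    have h4 : (j : ℝ) / (2 * r) ≤ 1 / 2 := by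
      rw [div_le_div_iff₀ (by positivity) (by norm_num)]
      have : (j : ℝ) ≤ r := by exact_mod_cast hj
      linarith
    have h7 : (j : ℝ) / (2 * r) * f 0 ≤ 1 / 2 * f 0 := mul_le_mul_of_nonneg_right h4 hf0.le
    constructor <;> linarith
  refine ⟨fun j hj => ⟨(hcmp2 j hj).1, by linarith [(hcmp2 j hj).2]⟩, ?_⟩
  have hfin := hlog f 0 ε hε0 hε1 (fun j hj => by
      rw [zero_add]
      linarith [(hcmp2 j hj).1]) (fun j hj => by
      rw [zero_add]
      have h1 := (hcmp2 j hj).1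
      have h2 : 0 ≤ 3 * C0 * f j := by
        have : 0 ≤ f j := by linarith
        positivity
      linarith) (fun s j hsj => by
      rw [zero_add]
      have h1 := hD s j ε hsj hε0 hε1
      have h2 := herr' s (by omega)
      have h3 := (hcmp2 j (by omega)).2
      have h4 : ε ^ s * f j ≤ ε ^ s * (3 / 2 * f 0) :=
        mul_le_mul_of_nonneg_left h3 (by positivity)
      refine h1.trans ?_
      calc C0 * (ε ^ s * f j + Real.exp (-(ε ^ 2 * g / A0)) * x)
          ≤ C0 * (ε ^ s * (3 / 2 * f 0) + ε ^ s * f 0) := by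
            refine mul_le_mul_of_nonneg_left ?_ hC0.le
            linarith
        _ = 5 / 2 * C0 * (ε ^ s * f 0) := by ring
        _ ≤ (3 * C0 + 2) * (ε ^ s * f 0) := by
            refine mul_le_mul_of_nonneg_right (by linarith) (by positivity)
        _ = _ := by ring)
  refine hfin.trans (le_of_eq ?_)
  rw [hε, hσ, mul_pow]
  ring

/-- differences of the logarithm of a marked sum, for sums over finite families of domains -/
theorem englog (r : ℕ) (hr : 1 ≤ r) : ∃ A C : ℝ, 0 < A ∧ 0 < C ∧ ∀ (ι : Type) (Z : Finset ι)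
    (D : ι → Set (ℤ × ℤ)) (F : ι → ℕ → List Dir → ℝ) (p m l N U V g : ℕ) (Λ : ℝ), 2 ≤ N →
    N = p + U + m + V + l → A * Real.log N ^ 2 ≤ g → g ≤ U → g + 2 * r ≤ V →
    (∀ z ∈ Z, ∀ q w, 0 ≤ F z q w ∧ F z q w ≤ 1) →
    (∀ z ∈ Z, ∀ q w, F z q w ≠ 0 → ∀ t, t ≤ w.length → Lip.PP w t ∈ D z) →
    (∀ z ∈ Z, Mk (D z) p m l (F z)) → Real.log N ≤ Λ →
    (Z.card : ℝ) * ((SW N).card : ℝ) ≤ Real.exp Λ * ∑ z ∈ Z, aa (F z) N (p + U) →
    0 < ∑ z ∈ Z, aa (F z) N (p + U) →
    A * Λ ≤ g →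
    (∀ j, j ≤ r → (∑ z ∈ Z, aa (F z) N (p + U)) / 2 ≤ ∑ z ∈ Z, aa (F z) N (p + U + 2 * j) ∧
      ∑ z ∈ Z, aa (F z) N (p + U + 2 * j) ≤ 2 * ∑ z ∈ Z, aa (F z) N (p + U)) ∧
    |∑ h ∈ range (r + 1), (-1 : ℝ) ^ h * (r.choose h : ℝ) *
      Real.log (∑ z ∈ Z, aa (F z) N (p + U + 2 * h))| ≤ C * (Real.sqrt (Λ / g)) ^ r := by
  choose A1 C1 hA1 hC1 heng using eng
  obtain ⟨A0, hA0⟩ : ∃ A0 : ℝ, A0 = ∑ s ∈ range (r + 1), A1 s := ⟨_, rfl⟩
  obtain ⟨C0, hC0⟩ : ∃ C0 : ℝ, C0 = ∑ s ∈ range (r + 1), C1 s := ⟨_, rfl⟩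
  have hA0s : ∀ s, s ≤ r → A1 s ≤ A0 := fun s hs => by
    rw [hA0]
    exact single_le_sum (f := A1) (fun t _ => (hA1 t).le) (mem_range.mpr (by omega))
  have hC0s : ∀ s, s ≤ r → C1 s ≤ C0 := fun s hs => by
    rw [hC0]
    exact single_le_sum (f := C1) (fun t _ => (hC1 t).le) (mem_range.mpr (by omega))
  have hA00 : 0 < A0 := lt_of_lt_of_le (hA1 0) (hA0s 0 (by omega))
  have hC00 : 0 < C0 := lt_of_lt_of_le (hC1 0) (hC0s 0 (by omega))
  obtain ⟨A, C, hA, hC, h⟩ := to_log r hr A0 C0 hA00 hC00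
  refine ⟨A0 + 2 * A, C * (Real.sqrt 2) ^ r, by positivity, by positivity,
    fun ι Z D F p m l N U V g Λ hN2 hN hg hU hV hF01 hFD hF hΛ hΛ2 hpos hAΛ => ?_⟩
  have hN' : (2 : ℝ) ≤ N := by exact_mod_cast hN2
  have hlog0 : (0.69 : ℝ) ≤ Real.log N := by
    have h1 : Real.log 2 ≤ Real.log N := Real.log_le_log (by norm_num) hN'
    have := Real.log_two_gt_d9
    linarith
  have hΛ0 : 0 < Λ := by linarith
  have hg0 : (0 : ℝ) < g := by
    refine lt_of_lt_of_le ?_ hg
    positivity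
  obtain ⟨f, hf⟩ : ∃ f : ℕ → ℝ, ∀ h, f h = ∑ z ∈ Z, aa (F z) N (p + U + 2 * h) :=
    ⟨_, fun _ => rfl⟩
  have hf0 : f 0 = ∑ z ∈ Z, aa (F z) N (p + U) := by rw [hf]; rfl
  have hx0 : 0 ≤ (Z.card : ℝ) * ((SW N).card : ℝ) := by positivity
  have hgN : (g : ℝ) ≤ N := by
    have : g ≤ N := by omega
    exact_mod_cast this
  have hkey := h f g ((Z.card : ℝ) * ((SW N).card : ℝ)) (2 * Λ) (by linarith) hg0
    (by
      refine hgN.trans ?_
      rw [← Real.exp_log (show (0 : ℝ) < N by linarith)]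
      exact Real.exp_le_exp.mpr (by linarith)) hx0
    (by rw [hf0]; exact hpos)
    (by
      rw [hf0]
      refine hΛ2.trans (mul_le_mul_of_nonneg_right ?_ hpos.le)
      exact Real.exp_le_exp.mpr (by linarith))
    (by
      have : 0 < A0 * Λ := by positivity
      linarith)
    (by
      intro s j ε hsj hε hε1
      have e1 : Df s f j = ∑ z ∈ Z, ∑ h ∈ range (s + 1), (-1 : ℝ) ^ h * (s.choose h : ℝ) *
          aa (F z) N (p + (U + 2 * j) + 2 * h) := by
        unfold Df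
        simp_rw [hf, mul_sum]
        rw [sum_comm]
        refine sum_congr rfl fun z _ => sum_congr rfl fun h _ => ?_
        congr 2
        ring
      rw [e1]
      refine (abs_sum_le_sum_abs _ _).trans ?_
      have e2 : ∀ z ∈ Z, |∑ h ∈ range (s + 1), (-1 : ℝ) ^ h * (s.choose h : ℝ) *
          aa (F z) N (p + (U + 2 * j) + 2 * h)| ≤
          C0 * (ε ^ s * aa (F z) N (p + U + 2 * j) +
            Real.exp (-(ε ^ 2 * g / A0)) * ((SW N).card : ℝ)) := by
        intro z hz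
        have h1 := heng s (D z) p m l N (U + 2 * j) (V - 2 * j) g ε (F z) hN2 (by omega)
          (by
            refine le_trans (mul_le_mul_of_nonneg_right ?_ (sq_nonneg _)) hg
            have := hA0s s (by omega)
            linarith) (by omega) (by omega) hε hε1 (hF01 z hz) (hFD z hz) (hF z hz)
        refine h1.trans ?_
        have e3 : p + (U + 2 * j) = p + U + 2 * j := by ring
        rw [e3]
        have h2 := (aa_le (hF01 z hz) N (p + U + 2 * j)).1
        have h3 : Real.exp (-(ε ^ 2 * g / A1 s)) ≤ Real.exp (-(ε ^ 2 * g / A0)) := by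
          apply Real.exp_le_exp.mpr
          rw [neg_le_neg_iff]
          exact div_le_div_of_nonneg_left (by positivity) (hA1 s) (hA0s s (by omega))
        have h4 : 0 ≤ ε ^ s * aa (F z) N (p + U + 2 * j) +
            Real.exp (-(ε ^ 2 * g / A0)) * ((SW N).card : ℝ) := by positivity
        calc _ ≤ C1 s * (ε ^ s * aa (F z) N (p + U + 2 * j) +
            Real.exp (-(ε ^ 2 * g / A0)) * ((SW N).card : ℝ)) := by
              refine mul_le_mul_of_nonneg_left ?_ (hC1 s).le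
              have := mul_le_mul_of_nonneg_right h3 (Nat.cast_nonneg (α := ℝ) (SW N).card)
              linarith
          _ ≤ _ := mul_le_mul_of_nonneg_right (hC0s s (by omega)) h4
      refine (sum_le_sum e2).trans (le_of_eq ?_)
      rw [← mul_sum, sum_add_distrib, ← mul_sum, hf, sum_const, nsmul_eq_mul]
      ring)
  obtain ⟨h1, h2⟩ := hkey
  refine ⟨fun j hj => ?_, ?_⟩
  · have := h1 j hj
    rw [hf0, hf j] at this
    exact this
  · have e1 : Df r (fun j => Real.log (f j)) 0 = ∑ h ∈ range (r + 1), (-1 : ℝ) ^ h *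
        (r.choose h : ℝ) * Real.log (∑ z ∈ Z, aa (F z) N (p + U + 2 * h)) := by
      unfold Df
      refine sum_congr rfl fun h _ => ?_
      simp only [zero_add, hf]
    rw [← e1]
    refine h2.trans (le_of_eq ?_)
    rw [show 2 * Λ / (g : ℝ) = 2 * (Λ / g) by ring, Real.sqrt_mul (by norm_num), mul_pow]
    ring

end

end Pool.Agent.U954.TA
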