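import Pool.Agent.N704.EZ.DifCore

/-!
# Products of two binomial coefficients: iterated differences and ratios
-/

set_option autoImplicit false
set_option linter.unusedVariables false

namespace Pool.Agent.U954.TA

open Finset
open Pool.Agent.N704.EZ (D core cc cc_pos prod_bound)

/-- reversal -/
theorem iter_rev (r : ℕ) (f g : ℕ → ℝ) (h : ∀ i, i ≤ r → g i = f (r - i)) :
    ∀ s i, s + i ≤ r → D^[s] g i = (-1) ^ s * D^[s] f (r - i - s)
  | 0, i, hi => by simp [h i (by omega)]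
  | s + 1, i, hi => by
    rw [Function.iterate_succ_apply', Function.iterate_succ_apply']
    simp only [D]
    rw [iter_rev r f g h s (i + 1) (by omega), iter_rev r f g h s i (by omega)]
    have e1 : r - (i + 1) - s = r - i - (s + 1) := by omega
    have e2 : r - i - s = r - i - (s + 1) + 1 := by omega
    rw [e1, e2]
    ring

/-- the iterated difference as a sum -/
theorem iter_sum (r : ℕ) (f : ℕ → ℝ) :
    |D^[r] f 0| = |∑ i ∈ range (r + 1), (-1 : ℝ) ^ i * (r.choose i : ℝ) * f i| := by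
  have h1 : D^[r] f 0 = ∑ i ∈ range (r + 1), ((-1 : ℤ) ^ (r - i) * (r.choose i : ℤ)) • f (0 + i • 1) :=
    fwdDiff_iter_eq_sum_shift (1 : ℕ) f r 0
  rw [h1]
  have h2 : ∑ i ∈ range (r + 1), ((-1 : ℤ) ^ (r - i) * (r.choose i : ℤ)) • f (0 + i • 1) =
      (-1 : ℝ) ^ r * ∑ i ∈ range (r + 1), (-1 : ℝ) ^ i * (r.choose i : ℝ) * f i := by
    rw [mul_sum]
    refine sum_congr rfl fun i hi => ?_
    have hir : i ≤ r := by
      have := mem_range.mp hi
      omega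
    rw [zsmul_eq_mul]
    push_cast
    have h3 : (-1 : ℝ) ^ (r - i) = (-1) ^ r * (-1) ^ i := by
      have h4 : (-1 : ℝ) ^ r = (-1) ^ (r - i) * (-1) ^ i := by
        rw [← pow_add]
        congr 1
        omega
      rw [h4, mul_assoc, ← mul_pow]
      norm_num
    rw [h3]
    simp
    ring
  rw [h2, abs_mul, abs_pow, abs_neg, abs_one, one_pow, one_mul]

theorem choose_le (S j : ℕ) (m : ℝ) (hm : 0 ≤ m) (hj : m * j ≤ 4 * ((S : ℝ) - j)) (hjS : j ≤ S) :
    ∀ s, s ≤ j → m ^ s * (S.choose (j - s) : ℝ) ≤ 4 ^ s * (S.choose j : ℝ)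
  | 0, _ => by simp
  | s + 1, hs => by
    have ih := choose_le S j m hm hj hjS s (by omega)
    obtain ⟨a, ha⟩ : ∃ a, j - s = a + 1 := ⟨j - s - 1, by omega⟩
    have ha' : j - (s + 1) = a := by omega
    rw [ha] at ih
    rw [ha']
    have h1 : (S.choose (a + 1) : ℝ) * ((a : ℝ) + 1) = (S.choose a : ℝ) * ((S : ℝ) - a) := by
      have h2 := Nat.choose_succ_right_eq S a
      have h4 : (((S.choose (a + 1) * (a + 1) : ℕ)) : ℝ) = ((S.choose a * (S - a) : ℕ) : ℝ) := by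
        rw [h2]
      push_cast [Nat.cast_sub (show a ≤ S by omega)] at h4
      exact h4
    have haj : (a : ℝ) + 1 ≤ j := by
      have : a + 1 ≤ j := by omega
      exact_mod_cast this
    have hjS' : (j : ℝ) ≤ S := by exact_mod_cast hjS
    have ha0 : (0 : ℝ) ≤ a := Nat.cast_nonneg a
    have h5 : m * ((a : ℝ) + 1) ≤ 4 * ((S : ℝ) - a) := by
      calc m * ((a : ℝ) + 1) ≤ m * j := mul_le_mul_of_nonneg_left haj hm
        _ ≤ 4 * ((S : ℝ) - j) := hj
        _ ≤ _ := by linarith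
    have h6 : 0 < (S : ℝ) - a := by linarith
    have h7 : m * (S.choose a : ℝ) ≤ 4 * (S.choose (a + 1) : ℝ) := by
      rw [← mul_le_mul_iff_left₀ h6]
      calc m * (S.choose a : ℝ) * ((S : ℝ) - a) = m * ((a : ℝ) + 1) * (S.choose (a + 1) : ℝ) := by
            rw [mul_assoc, ← h1]
            ring
        _ ≤ 4 * ((S : ℝ) - a) * (S.choose (a + 1) : ℝ) := by gcongr
        _ = _ := by ring
    calc m ^ (s + 1) * (S.choose a : ℝ) = m ^ s * (m * (S.choose a : ℝ)) := by ring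
      _ ≤ m ^ s * (4 * (S.choose (a + 1) : ℝ)) := by gcongr
      _ = 4 * (m ^ s * (S.choose (a + 1) : ℝ)) := by ring
      _ ≤ 4 * (4 ^ s * (S.choose j : ℝ)) := by gcongr
      _ = _ := by ring

/-- one-sided version -/
theorem dp1 (r : ℕ) : ∃ C : ℝ, 0 < C ∧ ∀ (S k S' j : ℕ) (m ε : ℝ), 1 ≤ m → 0 < ε → ε ≤ 1 →
    r ≤ j → j ≤ S' → 1 ≤ ε ^ 2 * (k : ℝ) → 1 ≤ ε ^ 2 * ((j : ℝ) - r) →
    |((S : ℝ) - k) / ((k : ℝ) + 1) - m| ≤ ε * m →
    |((S' : ℝ) - (j - r)) / (((j : ℝ) - r) + 1) - m| ≤ ε * m →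
    m * j ≤ 4 * ((S' : ℝ) - j) →
    |∑ h ∈ range (r + 1), (-1 : ℝ) ^ h * (r.choose h : ℝ) *
      ((S.choose (k + h) : ℝ) * (S'.choose (j - h) : ℝ))| ≤
      C * ε ^ r * ((S.choose k : ℝ) * (S'.choose j : ℝ)) := by
  have hcc := cc_pos r r
  refine ⟨2 ^ r * cc r r * (4 ^ r * cc r r), by positivity,
    fun S k S' j m ε hm hε hε1 hrj hjS hk hj h1 h2 h3 => ?_⟩
  have hm0 : 0 < m := by linarith
  have c1 : ((j - r : ℕ) : ℝ) = (j : ℝ) - r := by rw [Nat.cast_sub hrj]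
  have f1 := core r S k m ε hm hε hε1 hk h1 r le_rfl
  have f2 := core r S' (j - r) m ε hm hε hε1 (by rw [c1]; exact hj) (by rw [c1]; exact h2) r le_rfl
  obtain ⟨f, hf⟩ : ∃ f : ℕ → ℝ, f = fun i => (S.choose (k + i) : ℝ) / m ^ i := ⟨_, rfl⟩
  obtain ⟨φ, hφ⟩ : ∃ φ : ℕ → ℝ, φ = fun i => (S'.choose (j - r + i) : ℝ) / m ^ i := ⟨_, rfl⟩
  obtain ⟨g, hg⟩ : ∃ g : ℕ → ℝ, g = fun i => m ^ i * (S'.choose (j - i) : ℝ) := ⟨_, rfl⟩
  rw [← hf] at f1
  rw [← hφ] at f2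
  have hrev : ∀ i, i ≤ r → g i = (fun i => m ^ r * φ i) (r - i) := by
    intro i hi
    rw [hg, hφ]
    simp only
    have e1 : j - r + (r - i) = j - i := by omega
    have e2 : m ^ r = m ^ i * m ^ (r - i) := by rw [← pow_add]; congr 1; omega
    rw [e1, e2]
    field_simp
  have hD : ∀ s i, s + i ≤ r → |D^[s] g i| ≤ m ^ r * (cc r r * (S'.choose (j - r) : ℝ)) * ε ^ s := by
    intro s i hsi
    rw [iter_rev r (fun i => m ^ r * φ i) g hrev s i hsi, abs_mul, abs_pow, abs_neg, abs_one, one_pow, one_mul,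
      Pool.Agent.N704.EZ.iter_smul, abs_mul, abs_of_pos (by positivity : (0 : ℝ) < m ^ r)]
    have := f2 s (r - i - s) (by omega) (by omega)
    calc m ^ r * |D^[s] φ (r - i - s)| ≤ m ^ r * (cc r r * (S'.choose (j - r) : ℝ) * ε ^ s) := by
          gcongr
      _ = _ := by ring
  have hp := prod_bound ε hε r r f g 0 0 (cc r r * (S.choose k : ℝ))
    (m ^ r * (cc r r * (S'.choose (j - r) : ℝ))) (by positivity) (by positivity)
    (fun s' i hs' hi => by simpa using f1 s' i hs' hi)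
    (fun s' i hs' hi => by simpa using hD s' i hi) 0 (by omega)
  rw [iter_sum] at hp
  have e3 : ∑ i ∈ range (r + 1), (-1 : ℝ) ^ i * (r.choose i : ℝ) * (f i * g i) =
      ∑ h ∈ range (r + 1), (-1 : ℝ) ^ h * (r.choose h : ℝ) *
      ((S.choose (k + h) : ℝ) * (S'.choose (j - h) : ℝ)) := by
    refine sum_congr rfl fun i _ => ?_
    congr 1
    rw [hf, hg]
    simp only
    have : m ^ i ≠ 0 := by positivity
    field_simp
  rw [e3] at hp
  refine hp.trans ?_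
  have h4 := choose_le S' j m hm0.le h3 hjS r hrj
  have h5 : 0 ≤ 2 ^ r * cc r r * cc r r * (S.choose k : ℝ) * ε ^ r := by positivity
  calc 2 ^ r * (cc r r * (S.choose k : ℝ)) * (m ^ r * (cc r r * (S'.choose (j - r) : ℝ))) *
        ε ^ (r + 0 + 0)
      = (2 ^ r * cc r r * cc r r * (S.choose k : ℝ) * ε ^ r) *
        (m ^ r * (S'.choose (j - r) : ℝ)) := by ring
    _ ≤ (2 ^ r * cc r r * cc r r * (S.choose k : ℝ) * ε ^ r) * (4 ^ r * (S'.choose j : ℝ)) :=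
        mul_le_mul_of_nonneg_left h4 h5
    _ = _ := by ring

theorem q1 (p q ε : ℝ) (hε : 0 < ε) (hε1 : ε ≤ 1 / 8) (hp : 0 ≤ p) (h : q ≤ (1 + ε) * p) :
    q * (1 - ε) ≤ p := by
  have e2 : q * (1 - ε) ≤ (1 + ε) * p * (1 - ε) := mul_le_mul_of_nonneg_right h (by linarith)
  have e3 : 0 ≤ ε * ε * p := by positivity
  linarith

theorem q2 (x ε : ℝ) (hε : 0 < ε) (h : 1 ≤ ε * x) : (1 - 4 * ε) * (x + 1) ≤ x * (1 - ε) := by
  linarith

theorem rA1 (x1 x2 y1 y2 ε : ℝ) (hε : 0 < ε) (hε1 : ε ≤ 1 / 8) (h1 : 0 < x1) (h2 : 0 < x2)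
    (h3 : 0 < y1) (h4 : 0 < y2) (hx : 1 ≤ ε * x2)
    (b1 : x1 * y2 ≤ (1 + ε) * (y1 * x2)) (b2 : y1 * x2 ≤ (1 + ε) * (x1 * y2)) :
    |x1 / (x2 + 1) - y1 / y2| ≤ 4 * ε * (y1 / y2) := by
  have hx1 : 0 < x2 + 1 := by linarith
  rw [abs_le]
  constructor
  · have : y1 / y2 * (1 - 4 * ε) ≤ x1 / (x2 + 1) := by
      rw [div_mul_eq_mul_div, div_le_div_iff₀ h4 hx1]
      calc y1 * (1 - 4 * ε) * (x2 + 1) = y1 * ((1 - 4 * ε) * (x2 + 1)) := by ring
        _ ≤ y1 * (x2 * (1 - ε)) := mul_le_mul_of_nonneg_left (q2 x2 ε hε hx) h3.le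
        _ = y1 * x2 * (1 - ε) := by ring
        _ ≤ _ := q1 _ _ ε hε hε1 (by positivity) b2
    linarith
  · have : x1 / (x2 + 1) ≤ y1 / y2 * (1 + 4 * ε) := by
      rw [div_mul_eq_mul_div, div_le_div_iff₀ hx1 h4]
      have e3 : 0 ≤ y1 * x2 * ε := by positivity
      have e4 : 0 ≤ y1 * ε := by positivity
      linarith
    linarith

/-- `(a + ρ) / (b - ρ + 1)` is near `c / d` if `a / b` is -/
theorem rA3 (a b c d ρ ε : ℝ) (hε : 0 < ε) (hε1 : ε ≤ 1 / 8) (ha : 0 < a) (hb : 0 < b)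
    (hc : 0 < c) (hd : 0 < d) (hρ : 0 ≤ ρ) (hρa : 16 * ρ ≤ ε * a) (hρb : 16 * (ρ + 1) ≤ ε * b)
    (b1 : a * d ≤ (1 + ε) * (c * b)) (b2 : c * b ≤ (1 + ε) * (a * d)) :
    |(a + ρ) / (b - ρ + 1) - c / d| ≤ 4 * ε * (c / d) := by
  have hε2 : ε * b ≤ b / 8 := by
    have := mul_le_mul_of_nonneg_right hε1 hb.le
    linarith
  have hd' : 0 < b - ρ + 1 := by linarith
  rw [abs_le]
  constructor
  · have : c / d * (1 - 4 * ε) ≤ (a + ρ) / (b - ρ + 1) := by
      rw [div_mul_eq_mul_div, div_le_div_iff₀ hd hd']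
      have e4 : (1 - 4 * ε) * (b - ρ + 1) ≤ b * (1 - ε) := by
        have h5 : 0 ≤ (1 - 4 * ε) * ρ := mul_nonneg (by linarith) hρ
        linarith
      calc c * (1 - 4 * ε) * (b - ρ + 1) = c * ((1 - 4 * ε) * (b - ρ + 1)) := by ring
        _ ≤ c * (b * (1 - ε)) := mul_le_mul_of_nonneg_left e4 hc.le
        _ = c * b * (1 - ε) := by ring
        _ ≤ a * d := q1 _ _ ε hε hε1 (by positivity) b2
        _ ≤ (a + ρ) * d := mul_le_mul_of_nonneg_right (by linarith) hd.le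
    linarith
  · have : (a + ρ) / (b - ρ + 1) ≤ c / d * (1 + 4 * ε) := by
      rw [div_mul_eq_mul_div, div_le_div_iff₀ hd' hd]
      have e5 : a + ρ ≤ a * (1 + ε / 16) := by linarith
      have e6 : b ≤ (1 + ε / 2) * (b - ρ + 1) := by
        have h5 : ε * ρ ≤ 1 / 8 * ρ := mul_le_mul_of_nonneg_right hε1 hρ
        linarith
      have e7 : 0 ≤ b - ρ + 1 := hd'.le
      calc (a + ρ) * d ≤ (a * (1 + ε / 16)) * d := mul_le_mul_of_nonneg_right e5 hd.le
        _ = (a * d) * (1 + ε / 16) := by ring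
        _ ≤ ((1 + ε) * (c * b)) * (1 + ε / 16) := mul_le_mul_of_nonneg_right b1 (by positivity)
        _ = (1 + ε) * (1 + ε / 16) * c * b := by ring
        _ ≤ (1 + ε) * (1 + ε / 16) * c * ((1 + ε / 2) * (b - ρ + 1)) :=
            mul_le_mul_of_nonneg_left e6 (by positivity)
        _ = ((1 + ε) * (1 + ε / 2) * (1 + ε / 16)) * (c * (b - ρ + 1)) := by ring
        _ ≤ (1 + 4 * ε) * (c * (b - ρ + 1)) := by
            refine mul_le_mul_of_nonneg_right ?_ (by positivity)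
            have h5 : ε * ε ≤ 1 / 8 * ε := mul_le_mul_of_nonneg_right hε1 hε.le
            have h6 : ε * (ε * ε) ≤ 1 / 8 * (ε * ε) :=
              mul_le_mul_of_nonneg_right hε1 (by positivity)
            linarith
        _ = _ := by ring
    linarith

/-- the iterated differences of the product near the balance point -/
theorem dp (r : ℕ) : ∃ C : ℝ, 0 < C ∧ ∀ (S k S' j : ℕ) (ε G : ℝ), 0 < ε → ε ≤ 1 / 8 →
    C ≤ ε ^ 2 * G → G ≤ k → k + G ≤ S → G ≤ j → j + G ≤ S' →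
    ((S : ℝ) - k) * j ≤ (1 + ε) * (((S' : ℝ) - j) * k) →
    ((S' : ℝ) - j) * k ≤ (1 + ε) * (((S : ℝ) - k) * j) →
    |∑ h ∈ range (r + 1), (-1 : ℝ) ^ h * (r.choose h : ℝ) *
      ((S.choose (k + h) : ℝ) * (S'.choose (j - h) : ℝ))| ≤
      C * ε ^ r * ((S.choose k : ℝ) * (S'.choose j : ℝ)) := by
  obtain ⟨C, hC, h⟩ := dp1 r
  refine ⟨C * 4 ^ r + 16 * (r + 1), by positivity,
    fun S k S' j ε G hε hε1 hG hk hkS hj hjS b1 b2 => ?_⟩
  obtain ⟨x1, hx1⟩ : ∃ x1 : ℝ, x1 = (S : ℝ) - k := ⟨_, rfl⟩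
  obtain ⟨x2, hx2⟩ : ∃ x2 : ℝ, x2 = (k : ℝ) := ⟨_, rfl⟩
  obtain ⟨y1, hy1⟩ : ∃ y1 : ℝ, y1 = (S' : ℝ) - j := ⟨_, rfl⟩
  obtain ⟨y2, hy2⟩ : ∃ y2 : ℝ, y2 = (j : ℝ) := ⟨_, rfl⟩
  obtain ⟨ρ, hρ⟩ : ∃ ρ : ℝ, ρ = (r : ℝ) := ⟨_, rfl⟩
  rw [← hx1, ← hy1, ← hx2, ← hy2] at b1 b2
  have hr0 : 0 ≤ ρ := by rw [hρ]; exact Nat.cast_nonneg r
  have hG1 : 16 * (ρ + 1) ≤ ε ^ 2 * G := by
    have : 0 ≤ C * 4 ^ r := by positivity
    rw [hρ]
    linarith
  have hG0 : 0 < G := by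
    by_contra hcon
    push Not at hcon
    have : ε ^ 2 * G ≤ 0 := mul_nonpos_of_nonneg_of_nonpos (by positivity) hcon
    linarith
  have hεε : ε ^ 2 ≤ ε / 8 := by
    have := mul_le_mul_of_nonneg_right hε1 hε.le
    rw [pow_two]
    linarith
  have hG2 : ε ^ 2 * G ≤ ε / 8 * G := mul_le_mul_of_nonneg_right hεε hG0.le
  have hεG0 : 0 < ε * G := by positivity
  have hG3 : 16 * (ρ + 1) ≤ ε * G := by linarith
  have hG4 : 16 * (ρ + 1) ≤ G := by
    have : ε * G ≤ 1 / 8 * G := mul_le_mul_of_nonneg_right hε1 hG0.le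
    linarith
  have k1 : G ≤ x1 := by rw [hx1]; linarith
  have k2 : G ≤ x2 := by rw [hx2]; exact hk
  have k3 : G ≤ y1 := by rw [hy1]; linarith
  have k4 : G ≤ y2 := by rw [hy2]; exact hj
  have hx10 : 0 < x1 := by linarith
  have hx20 : 0 < x2 := by linarith
  have hy10 : 0 < y1 := by linarith
  have hy20 : 0 < y2 := by linarith
  have εx1 : ε * G ≤ ε * x1 := mul_le_mul_of_nonneg_left k1 hε.le
  have εx2 : ε * G ≤ ε * x2 := mul_le_mul_of_nonneg_left k2 hε.le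
  have εy1 : ε * G ≤ ε * y1 := mul_le_mul_of_nonneg_left k3 hε.le
  have εy2 : ε * G ≤ ε * y2 := mul_le_mul_of_nonneg_left k4 hε.le
  have hε20 : 0 ≤ ε ^ 2 := by positivity
  have sx1 : ε ^ 2 * G ≤ ε ^ 2 * x1 := mul_le_mul_of_nonneg_left k1 hε20
  have sx2 : ε ^ 2 * G ≤ ε ^ 2 * x2 := mul_le_mul_of_nonneg_left k2 hε20
  have sy1 : ε ^ 2 * G ≤ ε ^ 2 * y1 := mul_le_mul_of_nonneg_left k3 hε20
  have sy2 : ε ^ 2 * G ≤ ε ^ 2 * y2 := mul_le_mul_of_nonneg_left k4 hε20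
  have sρ : ε ^ 2 * ρ ≤ 1 * ρ := mul_le_mul_of_nonneg_right (by linarith) hr0
  have hkS' : k + r ≤ S := by
    have : (k : ℝ) + r ≤ S := by rw [← hρ]; linarith
    exact_mod_cast this
  have hrj : r ≤ j := by
    have : (r : ℝ) ≤ j := by rw [← hρ]; linarith
    exact_mod_cast this
  have hjS' : j + r ≤ S' := by
    have : (j : ℝ) + r ≤ S' := by rw [← hρ]; linarith
    exact_mod_cast this
  have hfin : C * (4 * ε) ^ r * ((S.choose k : ℝ) * (S'.choose j : ℝ)) ≤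
      (C * 4 ^ r + 16 * (r + 1)) * ε ^ r * ((S.choose k : ℝ) * (S'.choose j : ℝ)) := by
    rw [mul_pow]
    have e1 : 0 ≤ 16 * ((r : ℝ) + 1) * ε ^ r * ((S.choose k : ℝ) * (S'.choose j : ℝ)) := by
      positivity
    linarith
  rcases le_or_gt y2 y1 with hc | hc
  · have h5 := h S k S' j (y1 / y2) (4 * ε) ((one_le_div hy20).mpr hc) (by linarith) (by linarith)
      hrj (by omega)
      (by
        rw [← hx2]
        have : (4 * ε) ^ 2 * x2 = 16 * (ε ^ 2 * x2) := by ring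
        linarith)
      (by
        rw [← hy2, ← hρ]
        have : (4 * ε) ^ 2 * (y2 - ρ) = 16 * (ε ^ 2 * y2) - 16 * (ε ^ 2 * ρ) := by ring
        linarith)
      (by
        rw [← hx1, ← hx2]
        exact rA1 x1 x2 y1 y2 ε hε hε1 hx10 hx20 hy10 hy20 (by linarith) b1 b2)
      (by
        have e0 : (S' : ℝ) - (y2 - ρ) = y1 + ρ := by rw [hy1, hy2]; ring
        rw [← hy2, ← hρ, e0]
        exact rA3 y1 y2 y1 y2 ρ ε hε hε1 hy10 hy20 hy10 hy20 hr0 (by linarith) (by linarith)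
          (by
            have : 0 ≤ ε * (y1 * y2) := by positivity
            linarith)
          (by
            have : 0 ≤ ε * (y1 * y2) := by positivity
            linarith))
      (by
        rw [← hy1, ← hy2, div_mul_cancel₀ _ hy20.ne']
        linarith)
    exact h5.trans hfin
  · -- the complements
    have c1 : ((S' - j : ℕ) : ℝ) = y1 := by rw [hy1, Nat.cast_sub (by omega)]
    have c2 : ((S - k : ℕ) : ℝ) = x1 := by rw [hx1, Nat.cast_sub (by omega)]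
    have h5 := h S' (S' - j) S (S - k) (y2 / y1) (4 * ε) ((one_le_div hy10).mpr hc.le)
      (by linarith) (by linarith) (by omega) (by omega)
      (by
        rw [c1]
        have : (4 * ε) ^ 2 * y1 = 16 * (ε ^ 2 * y1) := by ring
        linarith)
      (by
        rw [c2, ← hρ]
        have : (4 * ε) ^ 2 * (x1 - ρ) = 16 * (ε ^ 2 * x1) - 16 * (ε ^ 2 * ρ) := by ring
        linarith)
      (by
        have e0 : (S' : ℝ) - y1 = y2 := by rw [hy1, hy2]; ring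
        rw [c1, e0]
        refine rA1 y2 y1 y2 y1 ε hε hε1 hy20 hy10 hy20 hy10 (by linarith) ?_ ?_
        · have : 0 ≤ ε * (y2 * y1) := by positivity
          linarith
        · have : 0 ≤ ε * (y2 * y1) := by positivity
          linarith)
      (by
        have e0 : (S : ℝ) - (x1 - ρ) = x2 + ρ := by rw [hx1, hx2]; ring
        rw [c2, ← hρ, e0]
        refine rA3 x2 x1 y2 y1 ρ ε hε hε1 hx20 hx10 hy20 hy10 hr0 (by linarith) (by linarith) ?_ ?_
        · linarith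
        · linarith)
      (by
        have e0 : (S : ℝ) - x1 = x2 := by rw [hx1, hx2]; ring
        rw [c2, e0, div_mul_eq_mul_div, div_le_iff₀ hy10]
        have e3 : 0 ≤ y1 * x2 := by positivity
        have e4 : ε * (y1 * x2) ≤ 1 / 8 * (y1 * x2) := mul_le_mul_of_nonneg_right hε1 e3
        linarith)
    have e7 : ∑ h ∈ range (r + 1), (-1 : ℝ) ^ h * (r.choose h : ℝ) *
        ((S.choose (k + h) : ℝ) * (S'.choose (j - h) : ℝ)) =
        ∑ h ∈ range (r + 1), (-1 : ℝ) ^ h * (r.choose h : ℝ) *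
        ((S'.choose (S' - j + h) : ℝ) * (S.choose (S - k - h) : ℝ)) := by
      refine sum_congr rfl fun i hi => ?_
      rw [mem_range] at hi
      have e8 : S'.choose (S' - j + i) = S'.choose (j - i) := by
        rw [← Nat.choose_symm (show j - i ≤ S' by omega)]
        congr 1
        omega
      have e9 : S.choose (S - k - i) = S.choose (k + i) := by
        rw [← Nat.choose_symm (show k + i ≤ S by omega)]
        congr 1
        omega
      rw [e8, e9]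
      ring
    have e10 : S'.choose (S' - j) = S'.choose j := Nat.choose_symm (by omega)
    have e11 : S.choose (S - k) = S.choose k := Nat.choose_symm (by omega)
    rw [e7]
    rw [e10, e11] at h5
    refine h5.trans (le_trans (le_of_eq ?_) hfin)
    ring

/-- moving `t` elements from one binomial coefficient to the other one -/
theorem mvr (S i S' j t : ℕ) (ρ : ℝ) (hρ : 0 ≤ ρ) (htj : t ≤ j) (hit : i + t ≤ S) (hjS : j ≤ S')
    (h : ρ * (((i : ℝ) + t) * ((S' : ℝ) - j + t)) ≤ ((S : ℝ) - i - t) * ((j : ℝ) - t)) :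
    ∀ s, s ≤ t → (S.choose i : ℝ) * (S'.choose j : ℝ) * ρ ^ s ≤
      (S.choose (i + s) : ℝ) * (S'.choose (j - s) : ℝ)
  | 0, _ => by simp
  | s + 1, hs => by
    have ih := mvr S i S' j t ρ hρ htj hit hjS h s (by omega)
    obtain ⟨a, ha⟩ : ∃ a, j - s = a + 1 := ⟨j - s - 1, by omega⟩
    have ha' : j - (s + 1) = a := by omega
    rw [ha] at ih
    rw [ha']
    obtain ⟨b, hb⟩ : ∃ b, b = i + s := ⟨_, rfl⟩
    rw [← hb] at ih
    have hb' : i + (s + 1) = b + 1 := by omega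
    rw [hb']
    have h1 : (S'.choose (a + 1) : ℝ) * ((a : ℝ) + 1) = (S'.choose a : ℝ) * ((S' : ℝ) - a) := by
      have h2 := Nat.choose_succ_right_eq S' a
      have h4 : (((S'.choose (a + 1) * (a + 1) : ℕ)) : ℝ) =
          ((S'.choose a * (S' - a) : ℕ) : ℝ) := by rw [h2]
      push_cast [Nat.cast_sub (show a ≤ S' by omega)] at h4
      exact h4
    have h2 : (S.choose (b + 1) : ℝ) * ((b : ℝ) + 1) = (S.choose b : ℝ) * ((S : ℝ) - b) := by
      have h2 := Nat.choose_succ_right_eq S b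
      have h4 : (((S.choose (b + 1) * (b + 1) : ℕ)) : ℝ) =
          ((S.choose b * (S - b) : ℕ) : ℝ) := by rw [h2]
      push_cast [Nat.cast_sub (show b ≤ S by omega)] at h4
      exact h4
    have hs' : (s : ℝ) + 1 ≤ t := by exact_mod_cast hs
    have ca : (a : ℝ) + 1 = j - s := by
      have : a + 1 + s = j := by omega
      have : (a : ℝ) + 1 + s = j := by exact_mod_cast this
      linarith
    have cb : (b : ℝ) = i + s := by rw [hb]; push_cast; ring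
    have hit' : (i : ℝ) + t ≤ S := by exact_mod_cast hit
    have htj' : (t : ℝ) ≤ j := by exact_mod_cast htj
    have hjS' : (j : ℝ) ≤ S' := by exact_mod_cast hjS
    have hi0 : (0 : ℝ) ≤ i := Nat.cast_nonneg i
    have hs0 : (0 : ℝ) ≤ s := Nat.cast_nonneg s
    -- the ratio
    have h5 : ρ * (((b : ℝ) + 1) * ((S' : ℝ) - a)) ≤ ((S : ℝ) - b) * ((a : ℝ) + 1) := by
      have e1 : ((b : ℝ) + 1) * ((S' : ℝ) - a) ≤ ((i : ℝ) + t) * ((S' : ℝ) - j + t) := by
        apply mul_le_mul <;> linarith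
      have e2 : ((S : ℝ) - i - t) * ((j : ℝ) - t) ≤ ((S : ℝ) - b) * ((a : ℝ) + 1) := by
        apply mul_le_mul <;> linarith
      calc _ ≤ ρ * (((i : ℝ) + t) * ((S' : ℝ) - j + t)) := by gcongr
        _ ≤ _ := h
        _ ≤ _ := e2
    have hpos : 0 < ((b : ℝ) + 1) * ((S' : ℝ) - a) := by
      apply mul_pos <;> linarith
    have h6 : (S.choose b : ℝ) * (S'.choose (a + 1) : ℝ) * ρ ≤
        (S.choose (b + 1) : ℝ) * (S'.choose a : ℝ) := by
      rw [← mul_le_mul_iff_left₀ hpos]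
      calc (S.choose b : ℝ) * (S'.choose (a + 1) : ℝ) * ρ * (((b : ℝ) + 1) * ((S' : ℝ) - a))
          = ((S.choose b : ℝ) * (S'.choose (a + 1) : ℝ)) *
            (ρ * (((b : ℝ) + 1) * ((S' : ℝ) - a))) := by ring
        _ ≤ ((S.choose b : ℝ) * (S'.choose (a + 1) : ℝ)) * (((S : ℝ) - b) * ((a : ℝ) + 1)) := by
            gcongr
        _ = ((S.choose b : ℝ) * ((S : ℝ) - b)) * ((S'.choose (a + 1) : ℝ) * ((a : ℝ) + 1)) := by
            ring
        _ = ((S.choose (b + 1) : ℝ) * ((b : ℝ) + 1)) * ((S'.choose a : ℝ) * ((S' : ℝ) - a)) := by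
            rw [h1, h2]
        _ = _ := by ring
    calc (S.choose i : ℝ) * (S'.choose j : ℝ) * ρ ^ (s + 1)
        = (S.choose i : ℝ) * (S'.choose j : ℝ) * ρ ^ s * ρ := by ring
      _ ≤ (S.choose b : ℝ) * (S'.choose (a + 1) : ℝ) * ρ := by gcongr
      _ ≤ _ := h6

/-- unbalanced numbers remain unbalanced after a small change -/
theorem unb (x1 x2 y1 y2 G z ε : ℝ) (hε : 0 < ε) (hε1 : ε ≤ 1) (hG : 0 < G) (hz : 0 ≤ z)
    (hzG : 16 * z ≤ ε * G) (h1 : G ≤ x1) (h2 : G ≤ x2) (h3 : G ≤ y1) (h4 : G ≤ y2)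
    (h : (1 + ε) * (x2 * y1) ≤ x1 * y2) :
    (1 + ε / 2) * ((x2 + z) * (y1 + z)) ≤ (x1 - z) * (y2 - z) := by
  obtain ⟨δ, hδ⟩ : ∃ δ : ℝ, δ = ε / 16 := ⟨_, rfl⟩
  have hzδ : z ≤ δ * G := by rw [hδ]; linarith
  have hδ0 : 0 < δ := by rw [hδ]; positivity
  have hδ1 : δ ≤ 1 / 16 := by rw [hδ]; linarith
  have g1 := mul_le_mul_of_nonneg_left h1 hδ0.le
  have g2 := mul_le_mul_of_nonneg_left h2 hδ0.le
  have g3 := mul_le_mul_of_nonneg_left h3 hδ0.le
  have g4 := mul_le_mul_of_nonneg_left h4 hδ0.le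
  have e1 : (1 - δ) * x1 ≤ x1 - z := by linarith
  have e2 : (1 - δ) * y2 ≤ y2 - z := by linarith
  have e3 : x2 + z ≤ (1 + δ) * x2 := by linarith
  have e4 : y1 + z ≤ (1 + δ) * y1 := by linarith
  have hx2 : 0 < x2 := by linarith
  have hy1 : 0 < y1 := by linarith
  have hx1 : 0 < x1 := by linarith
  have hy2 : 0 < y2 := by linarith
  have e5 : (1 + ε / 2) * (1 + δ) ^ 2 ≤ (1 + ε) * (1 - δ) ^ 2 := by
    have hε' : ε = 16 * δ := by rw [hδ]; ring
    rw [hε']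
    have f1 : δ * δ ≤ 1 / 16 * δ := mul_le_mul_of_nonneg_right hδ1 hδ0.le
    have f2 : 0 < δ * δ * δ := by positivity
    have f3 : (1 + 16 * δ) * (1 - δ) ^ 2 - (1 + 16 * δ / 2) * (1 + δ) ^ 2 =
        4 * δ - 48 * (δ * δ) + 8 * (δ * δ * δ) := by ring
    linarith
  calc (1 + ε / 2) * ((x2 + z) * (y1 + z)) ≤ (1 + ε / 2) * (((1 + δ) * x2) * ((1 + δ) * y1)) := by
        gcongr
    _ = ((1 + ε / 2) * (1 + δ) ^ 2) * (x2 * y1) := by ring
    _ ≤ ((1 + ε) * (1 - δ) ^ 2) * (x2 * y1) := by gcongr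
    _ = (1 - δ) ^ 2 * ((1 + ε) * (x2 * y1)) := by ring
    _ ≤ (1 - δ) ^ 2 * (x1 * y2) := mul_le_mul_of_nonneg_left h (by positivity)
    _ = ((1 - δ) * x1) * ((1 - δ) * y2) := by ring
    _ ≤ (x1 - z) * (y2 - z) := by
        apply mul_le_mul e1 e2
        · have : 0 ≤ 1 - δ := by linarith
          positivity
        · have : 0 ≤ (1 - δ) * x1 := mul_nonneg (by linarith) hx1.le
          linarith

end Pool.Agent.U954.TA
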