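import Pool.Agent.N87.EZ.WT3
import Pool.Agent.N400.EX.TOG
import Pool.Agent.N929.EY.CLW

/-!
# Marked self-avoiding walks: weighted sums over the classes of the exchange of bumps

A walk `w` with a marked time `q`; the marked piece is `[q, q + m]`, the windows are `(p, q)` and
`(q + m, n - l)`.  `F q w` is a weight which does not change when a bump is added in a unit square
in the domain `D` inside one of the two windows (the mark moves with the walk).
-/

set_option autoImplicit false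
set_option linter.unusedVariables false

namespace Pool.Agent.U954.TA

open Pool.Agent.H976R2 Pool.Agent.H976R2.Dir Finset
open Pool.Agent.N929.EX Pool.Agent.N929.EY Pool.Agent.N929.EZ
open scoped Classical

noncomputable section

/-- invariance of the weight of a marked walk under the addition of bumps in `D` -/
structure Mk (D : Set (ℤ × ℤ)) (p m l : ℕ) (F : ℕ → List Dir → ℝ) : Prop where
  lo : ∀ (n k q : ℕ) (w : List Dir) (s : ℤ × ℤ) (w' : List Dir), Bp n k w s w' → Cs D s →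
    p < k → k + 1 < q → q + m + l ≤ n → F (q + 2) w' = F q w
  hi : ∀ (n k q : ℕ) (w : List Dir) (s : ℤ × ℤ) (w' : List Dir), Bp n k w s w' → Cs D s →
    p ≤ q → q + m < k → k + 1 + l < n → F q w' = F q w

/-- the walks in a class -/
def CS (L E E' : Finset (ℤ × ℤ)) (p u m v l i j : ℕ) : Finset (List Dir) :=
  (SW (p + (u + 2 * i) + m + (v + 2 * j) + l)).filter (fun w =>
    DD L 1 (p, p + (u + 2 * i)) w = E ∧
    DD L 1 (p + (u + 2 * i) + m, p + (u + 2 * i) + m + (v + 2 * j)) w = E' ∧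
    (OO L 1 (p, p + (u + 2 * i)) w).card = i ∧
    (OO L 1 (p + (u + 2 * i) + m, p + (u + 2 * i) + m + (v + 2 * j)) w).card = j)

/-- the weight of a class -/
def WS (L : Finset (ℤ × ℤ)) (F : ℕ → List Dir → ℝ) (E E' : Finset (ℤ × ℤ))
    (p u m v l i j : ℕ) : ℝ :=
  ∑ w ∈ CS L E E' p u m v l i j, F (p + (u + 2 * i)) w

theorem CS_mem {L E E' : Finset (ℤ × ℤ)} {p u m v l i j a b n : ℕ} (ha : a = p + (u + 2 * i))
    (hb : b = a + m + (v + 2 * j)) (hn : n = b + l) (w : List Dir) :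
    w ∈ CS L E E' p u m v l i j ↔ w ∈ SW n ∧ DD L 1 (p, a) w = E ∧ DD L 1 (a + m, b) w = E' ∧
      (OO L 1 (p, a) w).card = i ∧ (OO L 1 (a + m, b) w).card = j := by
  subst ha hb hn
  unfold CS
  rw [mem_filter]

theorem step1 {D : Set (ℤ × ℤ)} {L : Finset (ℤ × ℤ)} (hL : CF L) (hD : ∀ q ∈ L, Cs D q)
    {p m l : ℕ} {F : ℕ → List Dir → ℝ} (hF : Mk D p m l F) (E E' : Finset (ℤ × ℤ))
    (u v i j : ℕ) :
    WS L F E E' p u m v l i j * ((E.card - i : ℕ) : ℝ) =
      WS L F E E' p u m v l (i + 1) j * ((i : ℝ) + 1) := by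
  obtain ⟨f, g, hf, hg⟩ := Pool.Agent.N87.EZ.wt3 Pool.Agent.N400.EX.tog L hL
  obtain ⟨a, ha⟩ : ∃ a, a = p + (u + 2 * i) := ⟨_, rfl⟩
  obtain ⟨b, hb⟩ : ∃ b, b = a + m + (v + 2 * j) := ⟨_, rfl⟩
  obtain ⟨n, hn⟩ : ∃ n, n = b + l := ⟨_, rfl⟩
  have ha' : p + (u + 2 * (i + 1)) = a + 2 := by omega
  have hmem := CS_mem (L := L) (E := E) (E' := E') ha hb hn
  have hmem' := CS_mem (L := L) (E := E) (E' := E') (p := p) (u := u) (m := m) (v := v)
    (l := l) (i := i + 1) (j := j) (a := a + 2) (b := b + 2) (n := n + 2) (by omega) (by omega)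
    (by omega)
  have e1 : WS L F E E' p u m v l i j * ((E.card - i : ℕ) : ℝ) =
      ∑ x ∈ (CS L E E' p u m v l i j).sigma (fun w => E \ OO L 1 (p, a) w), F a x.1 := by
    unfold WS
    rw [← ha, sum_sigma, sum_mul]
    refine sum_congr rfl fun w hw => ?_
    obtain ⟨-, h4, -, h5, -⟩ := (hmem w).1 hw
    simp only [sum_const, nsmul_eq_mul]
    rw [card_sdiff_of_subset, h5]
    · ring
    · rw [← h4]
      exact OO_sub'
  have e2 : WS L F E E' p u m v l (i + 1) j * ((i : ℝ) + 1) =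
      ∑ x ∈ (CS L E E' p u m v l (i + 1) j).sigma (fun w => OO L 1 (p, a + 2) w),
        F (a + 2) x.1 := by
    unfold WS
    rw [ha', sum_sigma, sum_mul]
    refine sum_congr rfl fun w hw => ?_
    obtain ⟨-, -, -, h5, -⟩ := (hmem' w).1 hw
    simp only [sum_const, nsmul_eq_mul]
    rw [h5]
    push_cast
    ring
  rw [e1, e2]
  have hpa : p ≤ a := by omega
  have han : a ≤ n := by omega
  refine Finset.sum_nbij' (fun x => ⟨f x.1 x.2, x.2⟩) (fun x => ⟨g x.1 x.2, x.2⟩) ?_ ?_ ?_ ?_ ?_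
  · rintro ⟨w, q⟩ hx
    simp only [mem_sigma, mem_sdiff] at hx ⊢
    obtain ⟨hw, hp1, hp2⟩ := hx
    obtain ⟨h1, h5, h6, h7, h8⟩ := (hmem w).1 hw
    obtain ⟨k, -, -⟩ := hf p a n w q hpa han h1 (by rw [h5]; exact hp1) hp2
    refine ⟨(hmem' _).2 ⟨k.sw', ?_, ?_, ?_, ?_⟩, ?_⟩
    · rw [k.dd, h5]
    · have := k.dhi (a + m) b (by omega) (by omega) (by omega)
      rw [show a + 2 + m = a + m + 2 by omega, this, h6]
    · rw [k.os, card_insert_of_notMem hp2, h7]
    · have := k.ohi (a + m) b (by omega) (by omega) (by omega)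
      rw [show a + 2 + m = a + m + 2 by omega, this, h8]
    · rw [k.os]
      exact mem_insert_self _ _
  · rintro ⟨w, q⟩ hx
    simp only [mem_sigma, mem_sdiff] at hx ⊢
    obtain ⟨hw, hp⟩ := hx
    obtain ⟨h1, h5, h6, h7, h8⟩ := (hmem' w).1 hw
    obtain ⟨k, -, -⟩ := hg p a n w q hpa han h1 hp
    have hD' : DD L 1 (p, a) (g w q) = E := by rw [← k.dd, h5]
    refine ⟨(hmem _).2 ⟨k.sw, hD', ?_, ?_, ?_⟩, ?_, ?_⟩
    · have := k.dhi (a + m) b (by omega) (by omega) (by omega)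
      rw [← this, ← show a + 2 + m = a + m + 2 by omega, h6]
    · have h9 := h7
      rw [k.os, card_insert_of_notMem k.nm] at h9
      omega
    · have := k.ohi (a + m) b (by omega) (by omega) (by omega)
      rw [← this, ← show a + 2 + m = a + m + 2 by omega, h8]
    · rw [← hD']
      exact k.mem
    · exact k.nm
  · rintro ⟨w, q⟩ hx
    simp only [mem_sigma, mem_sdiff] at hx ⊢
    obtain ⟨hw, hp1, hp2⟩ := hx
    obtain ⟨h1, h5, -⟩ := (hmem w).1 hw
    obtain ⟨-, -, k⟩ := hf p a n w q hpa han h1 (by rw [h5]; exact hp1) hp2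
    rw [k]
  · rintro ⟨w, q⟩ hx
    simp only [mem_sigma, mem_sdiff] at hx ⊢
    obtain ⟨hw, hp⟩ := hx
    obtain ⟨h1, -⟩ := (hmem' w).1 hw
    obtain ⟨-, -, k⟩ := hg p a n w q hpa han h1 hp
    rw [k]
  · rintro ⟨w, q⟩ hx
    simp only [mem_sigma, mem_sdiff] at hx ⊢
    obtain ⟨hw, hp1, hp2⟩ := hx
    obtain ⟨h1, h5, -⟩ := (hmem w).1 hw
    have hqL : q ∈ L := by
      have : q ∈ DD L 1 (p, a) w := by rw [h5]; exact hp1
      exact (mem_filter.1 this).1
    obtain ⟨-, ⟨k, hk1, hk2, hB⟩, -⟩ := hf p a n w q hpa han h1 (by rw [h5]; exact hp1) hp2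
    exact (hF.lo n k a w q _ hB (hD q hqL) hk1 hk2 (by omega)).symm

theorem step2 {D : Set (ℤ × ℤ)} {L : Finset (ℤ × ℤ)} (hL : CF L) (hD : ∀ q ∈ L, Cs D q)
    {p m l : ℕ} {F : ℕ → List Dir → ℝ} (hF : Mk D p m l F) (E E' : Finset (ℤ × ℤ))
    (u v i j : ℕ) :
    WS L F E E' p u m v l i j * ((E'.card - j : ℕ) : ℝ) =
      WS L F E E' p u m v l i (j + 1) * ((j : ℝ) + 1) := by
  obtain ⟨f, g, hf, hg⟩ := Pool.Agent.N87.EZ.wt3 Pool.Agent.N400.EX.tog L hL
  obtain ⟨a, ha⟩ : ∃ a, a = p + (u + 2 * i) := ⟨_, rfl⟩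
  obtain ⟨b, hb⟩ : ∃ b, b = a + m + (v + 2 * j) := ⟨_, rfl⟩
  obtain ⟨n, hn⟩ : ∃ n, n = b + l := ⟨_, rfl⟩
  have hmem := CS_mem (L := L) (E := E) (E' := E') ha hb hn
  have hmem' := CS_mem (L := L) (E := E) (E' := E') (p := p) (u := u) (m := m) (v := v)
    (l := l) (i := i) (j := j + 1) (a := a) (b := b + 2) (n := n + 2) (by omega) (by omega)
    (by omega)
  have e1 : WS L F E E' p u m v l i j * ((E'.card - j : ℕ) : ℝ) =
      ∑ x ∈ (CS L E E' p u m v l i j).sigma (fun w => E' \ OO L 1 (a + m, b) w), F a x.1 := by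
    unfold WS
    rw [← ha, sum_sigma, sum_mul]
    refine sum_congr rfl fun w hw => ?_
    obtain ⟨-, -, h4, -, h5⟩ := (hmem w).1 hw
    simp only [sum_const, nsmul_eq_mul]
    rw [card_sdiff_of_subset, h5]
    · ring
    · rw [← h4]
      exact OO_sub'
  have e2 : WS L F E E' p u m v l i (j + 1) * ((j : ℝ) + 1) =
      ∑ x ∈ (CS L E E' p u m v l i (j + 1)).sigma (fun w => OO L 1 (a + m, b + 2) w),
        F a x.1 := by
    unfold WS
    rw [← ha, sum_sigma, sum_mul]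
    refine sum_congr rfl fun w hw => ?_
    obtain ⟨-, -, -, -, h5⟩ := (hmem' w).1 hw
    simp only [sum_const, nsmul_eq_mul]
    rw [h5]
    push_cast
    ring
  rw [e1, e2]
  have hpa : a + m ≤ b := by omega
  have han : b ≤ n := by omega
  refine Finset.sum_nbij' (fun x => ⟨f x.1 x.2, x.2⟩) (fun x => ⟨g x.1 x.2, x.2⟩) ?_ ?_ ?_ ?_ ?_
  · rintro ⟨w, q⟩ hx
    simp only [mem_sigma, mem_sdiff] at hx ⊢
    obtain ⟨hw, hp1, hp2⟩ := hx
    obtain ⟨h1, h5, h6, h7, h8⟩ := (hmem w).1 hw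
    obtain ⟨k, -, -⟩ := hf (a + m) b n w q hpa han h1 (by rw [h6]; exact hp1) hp2
    refine ⟨(hmem' _).2 ⟨k.sw', ?_, ?_, ?_, ?_⟩, ?_⟩
    · rw [k.dlo p a (by omega) (by omega), h5]
    · rw [k.dd, h6]
    · rw [k.olo p a (by omega) (by omega), h7]
    · rw [k.os, card_insert_of_notMem hp2, h8]
    · rw [k.os]
      exact mem_insert_self _ _
  · rintro ⟨w, q⟩ hx
    simp only [mem_sigma, mem_sdiff] at hx ⊢
    obtain ⟨hw, hp⟩ := hx
    obtain ⟨h1, h5, h6, h7, h8⟩ := (hmem' w).1 hw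
    obtain ⟨k, -, -⟩ := hg (a + m) b n w q hpa han h1 hp
    have hD' : DD L 1 (a + m, b) (g w q) = E' := by rw [← k.dd, h6]
    refine ⟨(hmem _).2 ⟨k.sw, ?_, hD', ?_, ?_⟩, ?_, ?_⟩
    · rw [← k.dlo p a (by omega) (by omega), h5]
    · rw [← k.olo p a (by omega) (by omega), h7]
    · have h9 := h8
      rw [k.os, card_insert_of_notMem k.nm] at h9
      omega
    · rw [← hD']
      exact k.mem
    · exact k.nm
  · rintro ⟨w, q⟩ hx
    simp only [mem_sigma, mem_sdiff] at hx ⊢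
    obtain ⟨hw, hp1, hp2⟩ := hx
    obtain ⟨h1, -, h6, -⟩ := (hmem w).1 hw
    obtain ⟨-, -, k⟩ := hf (a + m) b n w q hpa han h1 (by rw [h6]; exact hp1) hp2
    rw [k]
  · rintro ⟨w, q⟩ hx
    simp only [mem_sigma, mem_sdiff] at hx ⊢
    obtain ⟨hw, hp⟩ := hx
    obtain ⟨h1, -⟩ := (hmem' w).1 hw
    obtain ⟨-, -, k⟩ := hg (a + m) b n w q hpa han h1 hp
    rw [k]
  · rintro ⟨w, q⟩ hx
    simp only [mem_sigma, mem_sdiff] at hx ⊢
    obtain ⟨hw, hp1, hp2⟩ := hx
    obtain ⟨h1, -, h6, -⟩ := (hmem w).1 hw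
    have hqL : q ∈ L := by
      have : q ∈ DD L 1 (a + m, b) w := by rw [h6]; exact hp1
      exact (mem_filter.1 this).1
    obtain ⟨-, ⟨k, hk1, hk2, hB⟩, -⟩ :=
      hf (a + m) b n w q hpa han h1 (by rw [h6]; exact hp1) hp2
    exact (hF.hi n k a w q _ hB (hD q hqL) (by omega) hk1 (by omega)).symm

/-- from the ratios to the binomial coefficients -/
theorem binom_real (F : ℕ → ℝ) (S : ℕ)
    (h : ∀ i : ℕ, F i * ((S - i : ℕ) : ℝ) = F (i + 1) * ((i : ℝ) + 1)) (i : ℕ) :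
    F i = (S.choose i : ℝ) * F 0 := by
  induction i with
  | zero => simp
  | succ i ih =>
    have h1 := h i
    rw [ih] at h1
    have h2 : ((S.choose (i + 1) : ℕ) : ℝ) * ((i : ℝ) + 1) =
        ((S.choose i : ℕ) : ℝ) * ((S - i : ℕ) : ℝ) := by
      have := Nat.choose_succ_right_eq S i
      exact_mod_cast this
    have h3 : ((i : ℝ) + 1) ≠ 0 := by positivity
    apply mul_right_cancel₀ h3
    rw [← h1, mul_right_comm, h2.symm]
    ring

theorem ws_eq {D : Set (ℤ × ℤ)} {L : Finset (ℤ × ℤ)} (hL : CF L) (hD : ∀ q ∈ L, Cs D q)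
    {p m l : ℕ} {F : ℕ → List Dir → ℝ} (hF : Mk D p m l F) (E E' : Finset (ℤ × ℤ))
    (u v i j : ℕ) :
    WS L F E E' p u m v l i j =
      (E.card.choose i : ℝ) * (E'.card.choose j : ℝ) * WS L F E E' p u m v l 0 0 := by
  have h1 := binom_real (fun i => WS L F E E' p u m v l i j) E.card
    (fun i => step1 hL hD hF E E' u v i j) i
  have h2 := binom_real (fun j => WS L F E E' p u m v l 0 j) E'.card
    (fun j => step2 hL hD hF E E' u v 0 j) j
  rw [h1, h2]
  ring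

end

end Pool.Agent.U954.TA
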