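import Pool.Agent.N478.EZ.Fam3
import Pool.Agent.N322.EZ.SEL3
import Pool.Agent.N27.EX.Off
import Pool.Agent.N400.EX.TOG
import Pool.Agent.N457.EX.Plq
import Pool.Agent.N348.EX.Few
import Pool.Agent.N348.EX.Up

/-!
# One family of unit squares in a domain, good in all windows of length at least `C log(n)^2`
-/

set_option autoImplicit false
set_option linter.unusedVariables false

namespace Pool.Agent.U954.TA

open Pool.Agent.H976R2 Pool.Agent.H976R2.Dir Finset
open Pool.Agent.N929.EX Pool.Agent.N929.EY Pool.Agent.N929.EZ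
open Pool.Agent.N478.EZ (corners)
open scoped Classical

noncomputable section

/-- the real analysis of the error terms -/
theorem anaW (A0 B K : ℝ) (hA : 0 < A0) (hB : 0 < B) (hK : 0 ≤ K) : ∃ A c C : ℝ, 0 < A ∧ 0 < c ∧
    0 < C ∧ ∀ N g : ℕ, 2 ≤ N → A * Real.log N ^ 2 ≤ g → A0 * Real.log N ^ 2 ≤ g ∧ 16 ≤ g ∧
      ∀ g' : ℕ, g ≤ g' → B * Real.exp (-((g' : ℝ) / 5000)) +
          (2 / 7 : ℝ) ^ (g' / 4000000000) * (4 * Real.exp (K * Real.log N ^ 2)) +
          ((N : ℝ) + 1) ^ 2 * Real.exp (-((g : ℝ) / 400000000)) ≤ C * Real.exp (-(c * g)) := by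
  obtain ⟨c, hc⟩ : ∃ c : ℝ, c = 1 / 10 ^ 11 := ⟨_, rfl⟩
  have hc0 : 0 < c := by rw [hc]; positivity
  refine ⟨A0 + 10 ^ 11 * (K + 10), c, B + 4 * Real.exp 1 + 1, by positivity, hc0, by positivity,
    fun N g hN hg => ?_⟩
  have hN' : (2 : ℝ) ≤ N := by exact_mod_cast hN
  obtain ⟨l, hl⟩ : ∃ l : ℝ, l = Real.log N := ⟨_, rfl⟩
  rw [← hl] at hg ⊢
  have hl0 : (0.69 : ℝ) ≤ l := by
    rw [hl]
    have h1 : Real.log 2 ≤ Real.log N := Real.log_le_log (by norm_num) hN'
    have := Real.log_two_gt_d9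
    linarith
  have hl2 : (0.476 : ℝ) ≤ l ^ 2 := by nlinarith
  have hll : l ≤ 1.45 * l ^ 2 := by nlinarith
  have hA2 : 0 ≤ A0 * l ^ 2 := by positivity
  have hK2 : 0 ≤ K * l ^ 2 := by positivity
  have hg' : A0 * l ^ 2 + 10 ^ 11 * (K * l ^ 2) + 10 ^ 12 * l ^ 2 ≤ (g : ℝ) := by
    refine le_trans (le_of_eq ?_) hg
    ring
  have hg16 : (16 : ℝ) ≤ g := by linarith
  refine ⟨by linarith, by exact_mod_cast hg16, fun g' hgg => ?_⟩
  have hgg' : (g : ℝ) ≤ g' := by exact_mod_cast hgg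
  have hg0 : (0 : ℝ) ≤ g := Nat.cast_nonneg g
  have f1 : B * Real.exp (-((g' : ℝ) / 5000)) ≤ B * Real.exp (-(c * g)) := by
    refine mul_le_mul_of_nonneg_left (Real.exp_le_exp.mpr ?_) hB.le
    rw [hc]
    have : (1 / 10 ^ 11 : ℝ) * g ≤ (g' : ℝ) / 5000 := by linarith
    linarith
  have f2 : (2 / 7 : ℝ) ^ (g' / 4000000000) * (4 * Real.exp (K * l ^ 2)) ≤
      4 * Real.exp 1 * Real.exp (-(c * g)) := by
    obtain ⟨m, hm⟩ : ∃ m : ℕ, m = g' / 4000000000 := ⟨_, rfl⟩
    rw [← hm]
    have hm1 : g' < 4000000000 * (m + 1) := by omega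
    have hm2 : (g' : ℝ) < 4000000000 * ((m : ℝ) + 1) := by exact_mod_cast hm1
    have hp : (2 / 7 : ℝ) ^ m ≤ Real.exp (-(m : ℝ)) := by
      have h7 : (2.7182818286 : ℝ) > Real.exp 1 := Real.exp_one_lt_d9
      have h9 : (2 / 7 : ℝ) ≤ Real.exp (-1) := by
        rw [Real.exp_neg, ← one_div, div_le_div_iff₀ (by norm_num) (Real.exp_pos _)]
        linarith
      calc (2 / 7 : ℝ) ^ m ≤ Real.exp (-1) ^ m := pow_le_pow_left₀ (by norm_num) h9 m
        _ = Real.exp (-(m : ℝ)) := by rw [← Real.exp_nat_mul]; ring_nf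
    calc (2 / 7 : ℝ) ^ m * (4 * Real.exp (K * l ^ 2))
        ≤ Real.exp (-(m : ℝ)) * (4 * Real.exp (K * l ^ 2)) := by gcongr
      _ = 4 * Real.exp (-(m : ℝ) + K * l ^ 2) := by rw [Real.exp_add]; ring
      _ ≤ 4 * Real.exp (1 + -(c * g)) := by
          refine mul_le_mul_of_nonneg_left (Real.exp_le_exp.mpr ?_) (by norm_num)
          rw [hc]
          linarith
      _ = 4 * Real.exp 1 * Real.exp (-(c * g)) := by rw [Real.exp_add]; ring
  have f3 : ((N : ℝ) + 1) ^ 2 * Real.exp (-((g : ℝ) / 400000000)) ≤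
      1 * Real.exp (-(c * g)) := by
    have h1 : (N : ℝ) + 1 ≤ Real.exp (2 * l) := by
      rw [two_mul l, Real.exp_add, hl, Real.exp_log (by linarith)]
      nlinarith
    calc ((N : ℝ) + 1) ^ 2 * Real.exp (-((g : ℝ) / 400000000))
        ≤ Real.exp (2 * l) ^ 2 * Real.exp (-((g : ℝ) / 400000000)) := by gcongr
      _ = Real.exp (4 * l + -((g : ℝ) / 400000000)) := by
          rw [← Real.exp_nat_mul, ← Real.exp_add]
          congr 1
          push_cast
          ring
      _ ≤ 1 * Real.exp (-(c * g)) := by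
          rw [one_mul]
          apply Real.exp_le_exp.mpr
          rw [hc]
          linarith
  have h2 := Real.exp_pos (-(c * g))
  linarith

/-- one family for all long windows -/
theorem famW : ∃ A c C : ℝ, 0 < A ∧ 0 < c ∧ 0 < C ∧ ∀ N g : ℕ, 2 ≤ N →
    A * Real.log N ^ 2 ≤ g → ∀ D : Set (ℤ × ℤ), ∃ L : Finset (ℤ × ℤ), CF L ∧
      (∀ q ∈ L, Cs D q) ∧ ∀ a b : ℕ, a ≤ b → b ≤ N → g ≤ b - a →
        (((SW N).filter (fun w => (∀ t, t ≤ N → Lip.PP w t ∈ D) ∧ ¬ G3 L a b w)).card : ℝ) ≤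
          C * Real.exp (-(c * g)) * ((SW N).card : ℝ) := by
  have hsel := Pool.Agent.N322.EZ.sel3
  have hoff := Pool.Agent.N27.EX.off Pool.Agent.N400.EX.tog
  have hplq := Pool.Agent.N457.EX.plq
  obtain ⟨A0, B, hA0, hB, hF⟩ := few_win (Pool.Agent.N348.EX.few_of_up Pool.Agent.N348.EX.up)
  obtain ⟨μ, K, hμ, hK, hlow, hupp⟩ := Pool.Agent.N348.EX.up
  obtain ⟨A, c, C, hA, hc, hC, hana⟩ := anaW A0 B K hA0 hB hK
  refine ⟨A, c, C, hA, hc, hC, fun N g hN hg D => ?_⟩
  obtain ⟨h1, h16, h2⟩ := hana N g hN hg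
  obtain ⟨ι, hι1, hι2, Λ, hΛ, hsel⟩ := hsel (N + 1)
  -- the families in `D`
  obtain ⟨L, hL⟩ : ∃ L : ι → Finset (ℤ × ℤ), ∀ i, L i = (Λ i).filter (Cs D) :=
    ⟨fun i => (Λ i).filter (Cs D), fun _ => rfl⟩
  have hLC : ∀ i, CF (L i) := by
    intro i p hp q hq hpq
    rw [hL, mem_filter] at hp hq
    exact hΛ i p hp.1 q hq.1 hpq
  have hLD : ∀ i, ∀ q ∈ L i, Cs D q := by
    intro i q hq
    rw [hL, mem_filter] at hq
    exact hq.2
  obtain ⟨x, hx⟩ : ∃ x : ℝ, x = ((SW N).card : ℝ) := ⟨_, rfl⟩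
  have hx0 : 0 < x := by rw [hx]; exact lt_of_lt_of_le (by positivity) (hlow N)
  -- the exceptional sets
  obtain ⟨R, hR⟩ : ∃ R : ℕ × ℕ → ι → Finset (List Dir), ∀ t i, R t i =
      (SW N).filter (fun w => (∀ s, s ≤ N → Lip.PP w s ∈ D) ∧
        ¬ 4000 * BW (t.1 + 1) (N - t.2 + 2) w < t.2 - t.1 ∧
        ¬ (t.2 - t.1 ≤ 400000000 * (OO (L i) 1 (t.1, t.2) w).card)) := ⟨_, fun _ _ => rfl⟩
  obtain ⟨T, hT⟩ : ∃ T : Finset (ℕ × ℕ), T = (range (N + 1) ×ˢ range (N + 1)).filter
        (fun t => t.1 ≤ t.2 ∧ g ≤ t.2 - t.1) := ⟨_, rfl⟩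
  have hTc : ((T.card : ℕ) : ℝ) ≤ ((N : ℝ) + 1) ^ 2 := by
    have : T.card ≤ (N + 1) ^ 2 := by
      rw [hT]
      refine (card_filter_le _ _).trans ?_
      rw [card_product, card_range]
      apply le_of_eq
      ring
    exact_mod_cast this
  have hRs : ∀ t ∈ T, ∑ i, ((R t i).card : ℝ) ≤
      Real.exp (-((g : ℝ) / 400000000)) * Fintype.card ι * x := by
    rintro ⟨a, b⟩ ht
    rw [hT, mem_filter] at ht
    obtain ⟨ht1, hab, hg'⟩ := ht
    simp only [mem_product, mem_range] at ht1 hab hg' ⊢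
    have hbN : b ≤ N := by omega
    have key : ∀ w ∈ SW N, ((univ.filter (fun i => w ∈ R (a, b) i)).card : ℝ) ≤
        Real.exp (-((g : ℝ) / 400000000)) * Fintype.card ι := by
      intro w hw
      by_cases hw2 : (∀ s, s ≤ N → Lip.PP w s ∈ D) ∧
        ¬ 4000 * BW (a + 1) (N - b + 2) w < b - a
      · obtain ⟨hwD, hwF⟩ := hw2
        obtain ⟨P, hP1, hP2, hP3⟩ := plw hplq (a := a) (b := b) (by omega) hbN hw
        have hPD : ∀ p ∈ P, Cs D p := by
          intro p hp
          have h3 := hP2 {p} (mem_inter.mpr ⟨mem_singleton_self p, hp⟩)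
          obtain ⟨-, k, hk, -⟩ := mem_filter.mp h3
          exact corners hw hk hwD
        have hPc : b - a ≤ 4000 * P.card := by omega
        have hs := hsel P (fun p hp => by
          have h3 := hP1 p hp
          push_cast
          exact h3)
        have hsub : (univ.filter (fun i => w ∈ R (a, b) i)).card ≤
            (univ.filter (fun i => 100000 * (Λ i ∩ P).card < P.card)).card := by
          refine card_le_card (fun i hi => ?_)
          rw [mem_filter] at hi ⊢
          refine ⟨mem_univ _, ?_⟩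
          obtain ⟨-, hi⟩ := hi
          rw [hR, mem_filter] at hi
          obtain ⟨-, -, -, hi⟩ := hi
          simp only at hi
          by_contra hcon
          push Not at hcon
          apply hi
          have h5 : (Λ i ∩ P).card ≤ (OO (L i) 1 (a, b) w).card := by
            refine card_le_card (fun p hp => ?_)
            rw [mem_inter] at hp
            refine hP2 (L i) (mem_inter.mpr ⟨?_, hp.2⟩)
            rw [hL, mem_filter]
            exact ⟨hp.1, hPD p hp.2⟩
          omega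
        calc ((univ.filter (fun i => w ∈ R (a, b) i)).card : ℝ) ≤
            ((univ.filter (fun i => 100000 * (Λ i ∩ P).card < P.card)).card : ℝ) := by
              exact_mod_cast hsub
          _ ≤ Real.exp (-((P.card : ℝ) / 100000)) * Fintype.card ι := hs
          _ ≤ _ := by
              refine mul_le_mul_of_nonneg_right (Real.exp_le_exp.mpr ?_) (Nat.cast_nonneg _)
              have h6 : g ≤ 4000 * P.card := by omega
              have h7 : (g : ℝ) ≤ 4000 * P.card := by exact_mod_cast h6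
              linarith
      · have : univ.filter (fun i => w ∈ R (a, b) i) = ∅ := by
          refine filter_eq_empty_iff.mpr fun i _ hi => hw2 ?_
          rw [hR, mem_filter] at hi
          exact ⟨hi.2.1, hi.2.2.1⟩
        rw [this, card_empty, Nat.cast_zero]
        positivity
    have hswap : ∑ i, ((R (a, b) i).card : ℝ) =
        ∑ w ∈ SW N, ((univ.filter (fun i => w ∈ R (a, b) i)).card : ℝ) := by
      have e1 : ∀ i, ((R (a, b) i).card : ℝ) =
          ∑ w ∈ SW N, if w ∈ R (a, b) i then (1 : ℝ) else 0 := by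
        intro i
        rw [← sum_filter, sum_const, nsmul_eq_mul, mul_one]
        congr 2
        ext w
        rw [mem_filter]
        constructor
        · intro h
          refine ⟨?_, h⟩
          rw [hR, mem_filter] at h
          exact h.1
        · exact fun h => h.2
      simp_rw [e1]
      rw [sum_comm]
      refine sum_congr rfl fun w _ => ?_
      rw [← sum_filter, sum_const, nsmul_eq_mul, mul_one]
    rw [hswap]
    calc _ ≤ ∑ w ∈ SW N, Real.exp (-((g : ℝ) / 400000000)) * Fintype.card ι := sum_le_sum key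
      _ = _ := by rw [sum_const, nsmul_eq_mul, hx]; ring
  -- the choice of the family
  obtain ⟨i, -, hi⟩ : ∃ i ∈ (univ : Finset ι), ∑ t ∈ T, ((R t i).card : ℝ) ≤
      ((N : ℝ) + 1) ^ 2 * Real.exp (-((g : ℝ) / 400000000)) * x := by
    refine exists_le_of_sum_le univ_nonempty ?_
    rw [sum_comm, sum_const, nsmul_eq_mul]
    calc _ ≤ ∑ t ∈ T, Real.exp (-((g : ℝ) / 400000000)) * Fintype.card ι * x := sum_le_sum hRs
      _ = (T.card : ℝ) * (Real.exp (-((g : ℝ) / 400000000)) * Fintype.card ι * x) := by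
          rw [sum_const, nsmul_eq_mul]
      _ ≤ ((N : ℝ) + 1) ^ 2 * (Real.exp (-((g : ℝ) / 400000000)) * Fintype.card ι * x) :=
          mul_le_mul_of_nonneg_right hTc (by positivity)
      _ = _ := by rw [card_univ]; ring
  refine ⟨L i, hLC i, hLD i, fun a b hab hbN hgab => ?_⟩
  have c2 : ((b - a : ℕ) : ℝ) = b - a := by rw [Nat.cast_sub (by omega)]
  have hgab' : (g : ℝ) ≤ ((b - a : ℕ) : ℝ) := by exact_mod_cast hgab
  -- the three parts
  have p1 : ((R (a, b) i).card : ℝ) ≤
      ((N : ℝ) + 1) ^ 2 * Real.exp (-((g : ℝ) / 400000000)) * x := by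
    have ht : (a, b) ∈ T := by
      rw [hT, mem_filter]
      simp only [mem_product, mem_range]
      omega
    have h3 := single_le_sum (f := fun t => ((R t i).card : ℝ))
      (fun t _ => by positivity) ht
    exact h3.trans hi
  have p2 : (((SW N).filter (fun w => 4000 * BW (a + 1) (N - b + 2) w < b - a)).card : ℝ) ≤
      B * Real.exp (-(((b - a : ℕ) : ℝ) / 5000)) * x := by
    rw [hx]
    refine hF N a b hN hab hbN ?_
    rw [← c2]
    linarith
  have p3 : (((SW N).filter (fun w => 8 * ((b - a) / 4000000000) ≤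
      (OO (L i) 1 (a, b) w).card ∧ (DD (L i) 1 (a, b) w).card ≤
        (OO (L i) 1 (a, b) w).card + (b - a) / 4000000000)).card : ℝ) ≤
      (2 / 7 : ℝ) ^ ((b - a) / 4000000000) * (4 * Real.exp (K * Real.log N ^ 2)) * x := by
    have q1 := hoff (L i) (hLC i) 1 (a, b) N ((b - a) / 4000000000) ((b - a) / 4000000000)
      (8 * ((b - a) / 4000000000)) hab hbN le_rfl le_rfl (by simp) (by intro _; simp only; omega)
      (by simp)
    refine q1.trans ?_
    have g4 := hupp (N - 2 * ((b - a) / 4000000000)) N hN (by omega)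
    have g5 : μ ^ (N - 2 * ((b - a) / 4000000000)) ≤ x := by
      rw [hx]
      refine le_trans ?_ (hlow N)
      exact pow_le_pow_right₀ (by linarith) (by omega)
    calc (2 / 7 : ℝ) ^ ((b - a) / 4000000000) *
          ((SW (N - 2 * ((b - a) / 4000000000))).card : ℝ)
        ≤ (2 / 7 : ℝ) ^ ((b - a) / 4000000000) *
          (4 * (x * Real.exp (K * Real.log N ^ 2))) := by
          refine mul_le_mul_of_nonneg_left (g4.trans ?_) (by positivity)
          gcongr
      _ = _ := by ring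
  have hsub : (SW N).filter (fun w => (∀ t, t ≤ N → Lip.PP w t ∈ D) ∧ ¬ G3 (L i) a b w) ⊆
      (SW N).filter (fun w => 4000 * BW (a + 1) (N - b + 2) w < b - a) ∪
      ((SW N).filter (fun w => 8 * ((b - a) / 4000000000) ≤
        (OO (L i) 1 (a, b) w).card ∧ (DD (L i) 1 (a, b) w).card ≤
        (OO (L i) 1 (a, b) w).card + (b - a) / 4000000000) ∪ R (a, b) i) := by
    intro w hw
    rw [mem_filter] at hw
    obtain ⟨hw1, hw2, hw3⟩ := hw
    rw [mem_union, mem_union, mem_filter, mem_filter, hR, mem_filter]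
    by_contra hcon
    push Not at hcon
    obtain ⟨k1, k2, k3⟩ := hcon
    have k1' := k1 hw1
    have k3' := k3 hw1 hw2 (by simp only; omega)
    simp only at k3'
    have k2' := k2 hw1 (by omega)
    apply hw3
    unfold G3
    omega
  calc _ ≤ ((((SW N).filter (fun w => 4000 * BW (a + 1) (N - b + 2) w < b - a)).card +
      (((SW N).filter (fun w => 8 * ((b - a) / 4000000000) ≤
        (OO (L i) 1 (a, b) w).card ∧ (DD (L i) 1 (a, b) w).card ≤
        (OO (L i) 1 (a, b) w).card + (b - a) / 4000000000)).card +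
        (R (a, b) i).card) : ℕ) : ℝ) := by
        exact_mod_cast (card_le_card hsub).trans ((card_union_le _ _).trans
          (Nat.add_le_add_left (card_union_le _ _) _))
    _ ≤ B * Real.exp (-(((b - a : ℕ) : ℝ) / 5000)) * x +
        ((2 / 7 : ℝ) ^ ((b - a) / 4000000000) * (4 * Real.exp (K * Real.log N ^ 2)) * x +
        ((N : ℝ) + 1) ^ 2 * Real.exp (-((g : ℝ) / 400000000)) * x) := by
        push_cast
        linarith
    _ = (B * Real.exp (-(((b - a : ℕ) : ℝ) / 5000)) +
        (2 / 7 : ℝ) ^ ((b - a) / 4000000000) * (4 * Real.exp (K * Real.log N ^ 2)) +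
        ((N : ℝ) + 1) ^ 2 * Real.exp (-((g : ℝ) / 400000000))) * x := by ring
    _ ≤ C * Real.exp (-(c * g)) * x := mul_le_mul_of_nonneg_right (h2 (b - a) hgab) hx0.le
    _ = _ := by rw [hx]

end

end Pool.Agent.U954.TA
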